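import Pool.Agent.Q26.EndsB

set_option autoImplicit false

namespace Pool.Agent.Results.MP_3ac48a_al.SameEnds

open Pool.Agent.Q26.Ends

universe u

/-! ### The space of ends -/

section Defs

variable (G : Type u) [Group G]

/-- `A ⊆ G` is left `G`-commensurated: `gA △ A` is finite for every `g`. -/
def IsCommensurated (A : Set G) : Prop :=
  ∀ g : G, (symmDiff ((fun x => g * x) '' A) A).Finite

lemma isCommensurated_iff (A : Set G) : IsCommensurated G A ↔ LC G A := by
  have h : ∀ g : G, symmDiff ((fun x => g⁻¹ * x) '' A) A = {x | ¬ (x ∈ A ↔ g • x ∈ A)} := by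
    intro g
    ext x
    have h1 : x ∈ (fun x => g⁻¹ * x) '' A ↔ g * x ∈ A := by
      constructor
      · rintro ⟨y, hy, rfl⟩
        simpa using hy
      · intro hx
        exact ⟨g * x, hx, by simp⟩
    rw [Set.mem_symmDiff, h1]
    simp only [Set.mem_ofPred_eq, smul_eq_mul]
    tauto
  constructor
  · intro hA g
    rw [← h g]
    exact hA g⁻¹
  · intro hA g
    have := hA g⁻¹
    rw [← h g⁻¹, inv_inv] at this
    exact this

variable {G} in
lemma IsCommensurated.compl {A : Set G} (h : IsCommensurated G A) : IsCommensurated G Aᶜ := by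
  rw [isCommensurated_iff] at h ⊢
  intro g
  refine (h g).subset (fun x hx => ?_)
  simp only [Set.mem_ofPred_eq, Set.mem_compl_iff] at hx ⊢
  tauto

variable {G} in
lemma IsCommensurated.union {A B : Set G} (hA : IsCommensurated G A) (hB : IsCommensurated G B) :
    IsCommensurated G (A ∪ B) := by
  rw [isCommensurated_iff] at hA hB ⊢
  intro g
  refine ((hA g).union (hB g)).subset (fun x hx => ?_)
  simp only [Set.mem_ofPred_eq, Set.mem_union] at hx ⊢
  tauto

variable {G} in
lemma IsCommensurated.inter {A B : Set G} (hA : IsCommensurated G A) (hB : IsCommensurated G B) :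
    IsCommensurated G (A ∩ B) := by
  rw [isCommensurated_iff] at hA hB ⊢
  intro g
  refine ((hA g).union (hB g)).subset (fun x hx => ?_)
  simp only [Set.mem_ofPred_eq, Set.mem_union, Set.mem_inter_iff] at hx ⊢
  tauto

/-- The Boolean algebra `P_(G)(G)` of left `G`-commensurated subsets. -/
def commAlg : BooleanSubalgebra (Set G) where
  carrier := {A | IsCommensurated G A}
  supClosed' _ hA _ hB := IsCommensurated.union hA hB
  infClosed' _ hA _ hB := IsCommensurated.inter hA hB
  compl_mem' h := IsCommensurated.compl h
  bot_mem' := by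
    change IsCommensurated G ∅
    intro g
    simp

/-- Equality modulo finite sets. -/
def finSetoid : Setoid (commAlg G) where
  r A B := (symmDiff (A : Set G) (B : Set G)).Finite
  iseqv :=
    { refl := fun A => by simp
      symm := fun {A B} h => by rwa [symmDiff_comm]
      trans := fun {A B C} h1 h2 => (h1.union h2).subset (symmDiff_triangle _ _ _) }

/-- `P*_G(G)`: the quotient of `P_(G)(G)` by the ideal of finite subsets. -/
def EndAlg : Type u := Quotient (finSetoid G)

variable {G}

/-- The class of a commensurated set. -/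
def cls (A : commAlg G) : EndAlg G := Quotient.mk (finSetoid G) A

lemma cls_eq_iff {A B : commAlg G} : cls A = cls B ↔ (symmDiff (A : Set G) (B : Set G)).Finite :=
  Quotient.eq (r := finSetoid G)

lemma finite_symmDiff_iff {α : Type*} {A B : Set α} :
    (symmDiff A B).Finite ↔ (A \ B).Finite ∧ (B \ A).Finite := by
  rw [Set.symmDiff_def, Set.finite_union]

instance : LE (EndAlg G) :=
  ⟨Quotient.lift₂ (fun A B : commAlg G => ((A : Set G) \ (B : Set G)).Finite) (by
    intro A B A' B' h1 h2
    have h1' := finite_symmDiff_iff.mp (show (symmDiff (A : Set G) (A' : Set G)).Finite from h1)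
    have h2' := finite_symmDiff_iff.mp (show (symmDiff (B : Set G) (B' : Set G)).Finite from h2)
    apply propext
    constructor
    · intro h
      refine ((h.union h1'.2).union h2'.1).subset (fun x hx => ?_)
      simp only [Set.mem_union, Set.mem_sdiff] at hx ⊢
      tauto
    · intro h
      refine ((h.union h1'.1).union h2'.2).subset (fun x hx => ?_)
      simp only [Set.mem_union, Set.mem_sdiff] at hx ⊢
      tauto)⟩

lemma cls_le_iff {A B : commAlg G} : cls A ≤ cls B ↔ ((A : Set G) \ (B : Set G)).Finite := Iff.rfl

lemma cls_le_of_subset {A B : commAlg G} (h : (A : Set G) ⊆ B) : cls A ≤ cls B := by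
  rw [cls_le_iff, Set.sdiff_eq_empty.mpr h]
  exact Set.finite_empty

instance : BooleanAlgebra (EndAlg G) where
  le_refl a := by
    induction a using Quotient.ind
    exact cls_le_of_subset subset_rfl
  le_trans a b c := by
    induction a using Quotient.ind with | _ A
    induction b using Quotient.ind with | _ B
    induction c using Quotient.ind with | _ C
    intro (h1 : ((A : Set G) \ (B : Set G)).Finite) (h2 : ((B : Set G) \ (C : Set G)).Finite)
    change ((A : Set G) \ (C : Set G)).Finite
    refine (h1.union h2).subset (fun x hx => ?_)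
    simp only [Set.mem_union, Set.mem_sdiff] at hx ⊢
    tauto
  le_antisymm a b := by
    induction a using Quotient.ind with | _ A
    induction b using Quotient.ind with | _ B
    intro (h1 : ((A : Set G) \ (B : Set G)).Finite) (h2 : ((B : Set G) \ (A : Set G)).Finite)
    exact cls_eq_iff.mpr (finite_symmDiff_iff.mpr ⟨h1, h2⟩)
  sup := Quotient.map₂ (fun A B => A ⊔ B) (by
    intro A A' h1 B B' h2
    have h1' : (symmDiff (A : Set G) (A' : Set G)).Finite := h1
    have h2' : (symmDiff (B : Set G) (B' : Set G)).Finite := h2
    change (symmDiff ((A : Set G) ∪ (B : Set G)) ((A' : Set G) ∪ (B' : Set G))).Finite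
    refine (h1'.union h2').subset (fun x hx => ?_)
    simp only [Set.mem_symmDiff, Set.mem_union] at hx ⊢
    tauto)
  inf := Quotient.map₂ (fun A B => A ⊓ B) (by
    intro A A' h1 B B' h2
    have h1' : (symmDiff (A : Set G) (A' : Set G)).Finite := h1
    have h2' : (symmDiff (B : Set G) (B' : Set G)).Finite := h2
    change (symmDiff ((A : Set G) ∩ (B : Set G)) ((A' : Set G) ∩ (B' : Set G))).Finite
    refine (h1'.union h2').subset (fun x hx => ?_)
    simp only [Set.mem_symmDiff, Set.mem_union, Set.mem_inter_iff] at hx ⊢
    tauto)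
  compl := Quotient.map (fun A => Aᶜ) (by
    intro A A' h1
    have h1' : (symmDiff (A : Set G) (A' : Set G)).Finite := h1
    change (symmDiff ((A : Set G)ᶜ) ((A' : Set G)ᶜ)).Finite
    refine h1'.subset (fun x hx => ?_)
    simp only [Set.mem_symmDiff, Set.mem_compl_iff] at hx ⊢
    tauto)
  top := cls ⊤
  bot := cls ⊥
  le_sup_left a b := by
    induction a using Quotient.ind with | _ A
    induction b using Quotient.ind with | _ B
    exact cls_le_of_subset (A := A) (B := A ⊔ B) Set.subset_union_left
  le_sup_right a b := by
    induction a using Quotient.ind with | _ A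
    induction b using Quotient.ind with | _ B
    exact cls_le_of_subset (A := B) (B := A ⊔ B) Set.subset_union_right
  sup_le a b c := by
    induction a using Quotient.ind with | _ A
    induction b using Quotient.ind with | _ B
    induction c using Quotient.ind with | _ C
    intro (h1 : ((A : Set G) \ (C : Set G)).Finite) (h2 : ((B : Set G) \ (C : Set G)).Finite)
    change (((A : Set G) ∪ (B : Set G)) \ (C : Set G)).Finite
    refine (h1.union h2).subset (fun x hx => ?_)
    simp only [Set.mem_union, Set.mem_sdiff] at hx ⊢
    tauto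
  inf_le_left a b := by
    induction a using Quotient.ind with | _ A
    induction b using Quotient.ind with | _ B
    exact cls_le_of_subset (A := A ⊓ B) (B := A) Set.inter_subset_left
  inf_le_right a b := by
    induction a using Quotient.ind with | _ A
    induction b using Quotient.ind with | _ B
    exact cls_le_of_subset (A := A ⊓ B) (B := B) Set.inter_subset_right
  le_inf a b c := by
    induction a using Quotient.ind with | _ A
    induction b using Quotient.ind with | _ B
    induction c using Quotient.ind with | _ C
    intro (h1 : ((A : Set G) \ (B : Set G)).Finite) (h2 : ((A : Set G) \ (C : Set G)).Finite)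
    change ((A : Set G) \ ((B : Set G) ∩ (C : Set G))).Finite
    refine (h1.union h2).subset (fun x hx => ?_)
    simp only [Set.mem_union, Set.mem_sdiff, Set.mem_inter_iff] at hx ⊢
    tauto
  le_sup_inf a b c := by
    induction a using Quotient.ind with | _ A
    induction b using Quotient.ind with | _ B
    induction c using Quotient.ind with | _ C
    apply cls_le_of_subset (A := (A ⊔ B) ⊓ (A ⊔ C)) (B := A ⊔ B ⊓ C)
    intro x hx
    have hx' : x ∈ ((A : Set G) ∪ (B : Set G)) ∩ ((A : Set G) ∪ (C : Set G)) := hx
    change x ∈ (A : Set G) ∪ ((B : Set G) ∩ (C : Set G))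
    simp only [Set.mem_union, Set.mem_inter_iff] at hx' ⊢
    tauto
  inf_compl_le_bot a := by
    induction a using Quotient.ind with | _ A
    apply cls_le_of_subset (A := A ⊓ Aᶜ) (B := ⊥)
    intro x hx
    have hx' : x ∈ (A : Set G) ∩ (A : Set G)ᶜ := hx
    rw [Set.inter_compl_self] at hx'
    exact hx'
  top_le_sup_compl a := by
    induction a using Quotient.ind with | _ A
    apply cls_le_of_subset (A := ⊤) (B := A ⊔ Aᶜ)
    intro x _
    change x ∈ (A : Set G) ∪ (A : Set G)ᶜ
    rw [Set.union_compl_self]
    trivial
  le_top a := by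
    induction a using Quotient.ind with | _ A
    exact cls_le_of_subset (A := A) (B := ⊤) (Set.subset_univ _)
  bot_le a := by
    induction a using Quotient.ind with | _ A
    exact cls_le_of_subset (A := ⊥) (B := A) (Set.empty_subset _)

end Defs

/-- The Stone space of a Boolean algebra: its prime ideals. -/
def StoneSpace (B : Type u) [BooleanAlgebra B] : Type u := {I : Order.Ideal B // I.IsPrime}

/-- The Stone topology, generated by the sets `{I | b ∉ I}`. -/
instance (B : Type u) [BooleanAlgebra B] : TopologicalSpace (StoneSpace B) :=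
  TopologicalSpace.generateFrom {U | ∃ b : B, U = {I | b ∉ I.1}}

/-- The space of ends of a group. -/
abbrev EndSpace (G : Type u) [Group G] : Type u := StoneSpace (EndAlg G)

section Stone

variable {B B' : Type u} [BooleanAlgebra B] [BooleanAlgebra B']

/-- transport of prime ideals along an isomorphism -/
def StoneSpace.map (φ : B ≃o B') (I : StoneSpace B) : StoneSpace B' :=
  ⟨{ carrier := {b | φ.symm b ∈ I.1}
     lower' := fun a b hab ha => I.1.lower (φ.symm.monotone hab) ha
     nonempty' := by
      obtain ⟨x, hx⟩ := I.1.nonempty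
      exact ⟨φ x, by simpa using hx⟩
     directed' := by
      intro a ha b hb
      refine ⟨a ⊔ b, ?_, le_sup_left, le_sup_right⟩
      change φ.symm (a ⊔ b) ∈ I.1
      rw [map_sup]
      exact Order.Ideal.sup_mem ha hb }, by
    have hI := I.2
    have hprop : Order.Ideal.IsProper
        ({ carrier := {b | φ.symm b ∈ I.1}
           lower' := fun a b hab ha => I.1.lower (φ.symm.monotone hab) ha
           nonempty' := by
            obtain ⟨x, hx⟩ := I.1.nonempty
            exact ⟨φ x, by simpa using hx⟩
           directed' := by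
            intro a ha b hb
            refine ⟨a ⊔ b, ?_, le_sup_left, le_sup_right⟩
            change φ.symm (a ⊔ b) ∈ I.1
            rw [map_sup]
            exact Order.Ideal.sup_mem ha hb } : Order.Ideal B') := by
      apply Order.Ideal.isProper_of_notMem (p := ⊤)
      intro h
      have h1 : φ.symm ⊤ ∈ I.1 := h
      rw [map_top] at h1
      exact hI.toIsProper.top_notMem h1
    apply Order.Ideal.isPrime_of_mem_or_compl_mem
    intro b
    have h2 := hI.mem_or_compl_mem (x := φ.symm b)
    rcases h2 with h2 | h2
    · left; exact h2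
    · right
      change φ.symm bᶜ ∈ I.1
      rwa [map_compl]⟩

lemma StoneSpace.mem_map (φ : B ≃o B') (I : StoneSpace B) (b : B') :
    b ∈ (StoneSpace.map φ I).1 ↔ φ.symm b ∈ I.1 := Iff.rfl

lemma StoneSpace.ext {I J : StoneSpace B} (h : ∀ b, b ∈ I.1 ↔ b ∈ J.1) : I = J :=
  Subtype.ext (SetLike.ext h)

lemma StoneSpace.continuous_map (φ : B ≃o B') : Continuous (StoneSpace.map φ) := by
  rw [continuous_generateFrom_iff]
  rintro _ ⟨b, rfl⟩
  exact TopologicalSpace.isOpen_generateFrom_of_mem ⟨φ.symm b, rfl⟩

/-- Isomorphic Boolean algebras have homeomorphic Stone spaces. -/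
def StoneSpace.homeo (φ : B ≃o B') : StoneSpace B ≃ₜ StoneSpace B' where
  toFun := StoneSpace.map φ
  invFun := StoneSpace.map φ.symm
  left_inv I := by
    apply StoneSpace.ext
    intro b
    rw [StoneSpace.mem_map, StoneSpace.mem_map]
    simp
  right_inv I := by
    apply StoneSpace.ext
    intro b
    rw [StoneSpace.mem_map, StoneSpace.mem_map]
    simp
  continuous_toFun := StoneSpace.continuous_map φ
  continuous_invFun := StoneSpace.continuous_map φ.symm

end Stone

/-! ### Transport along a bijection -/

section Transport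

variable {G H : Type u} [Group G] [Group H]

/-- A bijection identifying commensurated sets induces an isomorphism of end algebras. -/
def endIso (θ : G ≃ H) (h : ∀ A : Set H, IsCommensurated G (θ ⁻¹' A) ↔ IsCommensurated H A) :
    EndAlg H ≃o EndAlg G where
  toFun := Quotient.map (fun A : commAlg H => (⟨θ ⁻¹' (A : Set H), (h _).mpr A.2⟩ : commAlg G)) (by
    intro A B hAB
    have hAB' : (symmDiff (A : Set H) (B : Set H)).Finite := hAB
    have e : symmDiff (θ ⁻¹' (A : Set H)) (θ ⁻¹' (B : Set H)) =
      θ ⁻¹' (symmDiff (A : Set H) (B : Set H)) := rfl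
    change (symmDiff (θ ⁻¹' (A : Set H)) (θ ⁻¹' (B : Set H))).Finite
    rw [e]
    exact hAB'.preimage θ.injective.injOn)
  invFun := Quotient.map (fun A : commAlg G => (⟨θ.symm ⁻¹' (A : Set G), (h _).mp (by
      rw [← Set.preimage_comp, Equiv.symm_comp_self, Set.preimage_id]; exact A.2)⟩ : commAlg H)) (by
    intro A B hAB
    have hAB' : (symmDiff (A : Set G) (B : Set G)).Finite := hAB
    have e : symmDiff (θ.symm ⁻¹' (A : Set G)) (θ.symm ⁻¹' (B : Set G)) =
      θ.symm ⁻¹' (symmDiff (A : Set G) (B : Set G)) := rfl
    change (symmDiff (θ.symm ⁻¹' (A : Set G)) (θ.symm ⁻¹' (B : Set G))).Finite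
    rw [e]
    exact hAB'.preimage θ.symm.injective.injOn)
  left_inv a := by
    induction a using Quotient.ind with | _ A
    apply congrArg (Quotient.mk (finSetoid H))
    apply Subtype.ext
    change θ.symm ⁻¹' (θ ⁻¹' (A : Set H)) = A
    rw [← Set.preimage_comp, Equiv.self_comp_symm, Set.preimage_id]
  right_inv a := by
    induction a using Quotient.ind with | _ A
    apply congrArg (Quotient.mk (finSetoid G))
    apply Subtype.ext
    change θ ⁻¹' (θ.symm ⁻¹' (A : Set G)) = A
    rw [← Set.preimage_comp, Equiv.symm_comp_self, Set.preimage_id]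
  map_rel_iff' := by
    intro a b
    induction a using Quotient.ind with | _ A
    induction b using Quotient.ind with | _ B
    change ((θ ⁻¹' (A : Set H)) \ (θ ⁻¹' (B : Set H))).Finite ↔ ((A : Set H) \ (B : Set H)).Finite
    rw [← Set.preimage_sdiff]
    constructor
    · intro hf
      have := hf.image θ
      rwa [Set.image_preimage_eq _ θ.surjective] at this
    · intro hf
      exact hf.preimage θ.injective.injOn

end Transport

/-! ### The two groups -/

/-- `ℤ²`, written multiplicatively. -/
abbrev Z2 : Type := Multiplicative (ℤ × ℤ)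

/-- `G₁ = ℤ^{*ℕ}`, the free group on countably many generators. -/
abbrev G1 : Type := FreeGroup ℕ

/-- `G₂ = (ℤ²)^{*ℕ}`, the free product of countably many copies of `ℤ²`. -/
abbrev G2 : Type := Monoid.CoprodI (fun _ : ℕ => Z2)

/-- The bijection between the two groups. -/
noncomputable def theta : G1 ≃ G2 :=
  (Free.tree.iso Prod.tree).trans (Monoid.CoprodI.Word.equiv (M := Prod.Fac)).symm

lemma word_equiv_mul (g x : G2) : Monoid.CoprodI.Word.equiv (M := Prod.Fac) (g * x) =
    g • Monoid.CoprodI.Word.equiv (M := Prod.Fac) x := by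
  change (g * x) • (Monoid.CoprodI.Word.empty : Monoid.CoprodI.Word Prod.Fac) =
    g • (x • (Monoid.CoprodI.Word.empty : Monoid.CoprodI.Word Prod.Fac))
  rw [mul_smul]

lemma comm_theta (A : Set G2) : IsCommensurated G1 (theta ⁻¹' A) ↔ IsCommensurated G2 A := by
  rw [isCommensurated_iff, isCommensurated_iff, Free.lc_iff_cut]
  have h1 : theta ⁻¹' A = Free.tree.iso Prod.tree ⁻¹'
      ((Monoid.CoprodI.Word.equiv (M := Prod.Fac)).symm ⁻¹' A) := rfl
  rw [h1, RayTree.cut_preimage_iff, ← Prod.lc_iff_cut]
  unfold LC
  refine forall_congr' (fun g => ?_)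
  have h2 : {x : G2 | ¬ (x ∈ A ↔ g • x ∈ A)} = Monoid.CoprodI.Word.equiv (M := Prod.Fac) ⁻¹'
      {w | ¬ (w ∈ (Monoid.CoprodI.Word.equiv (M := Prod.Fac)).symm ⁻¹' A ↔
        g • w ∈ (Monoid.CoprodI.Word.equiv (M := Prod.Fac)).symm ⁻¹' A)} := by
    ext x
    simp only [Set.mem_ofPred_eq, Set.mem_preimage, smul_eq_mul, ← word_equiv_mul,
      Equiv.symm_apply_apply]
  rw [h2]
  constructor
  · intro hf
    exact hf.preimage (Monoid.CoprodI.Word.equiv (M := Prod.Fac)).injective.injOn
  · intro hf
    have := hf.image (Monoid.CoprodI.Word.equiv (M := Prod.Fac))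
    rwa [Set.image_preimage_eq _ (Monoid.CoprodI.Word.equiv (M := Prod.Fac)).surjective] at this

/-- **Theorem.** The spaces of ends of the free group of countably infinite rank and of the free
product of countably infinitely many copies of `ℤ²` are homeomorphic, and the Boolean algebras
`P*_G(G)` of the two groups are isomorphic. -/
theorem result : Nonempty (EndSpace G1 ≃ₜ EndSpace G2) ∧ Nonempty (EndAlg G1 ≃o EndAlg G2) :=
  ⟨⟨StoneSpace.homeo (endIso theta comm_theta).symm⟩, ⟨(endIso theta comm_theta).symm⟩⟩

end Pool.Agent.Results.MP_3ac48a_al.SameEnds
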